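import Pool.Agent.T2H83.Zon.Simp

set_option autoImplicit false

/-!
# MP_5e7226_co: simplicial polytopes, and polytopes whose facets have few vertices

Let `K` be a polytope in `ℝ^d`, the convex hull of a finite set `X`, and `o ∉ X` an interior point.
Suppose that `K - o` is contained in an ellipsoid `{z : ⟪v, z⟫ ≤ 1 for all v with ‖A v‖ ≤ 1}` (for
`A = id` this is the unit ball), and that all facets of `K`, with the exception of at most
`(1 - 33/d) 2^d` of them, contain at most `d + k` points of `X` (for `k = 0`: they are simplices)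
and have the distance at least `1/R` from `o` (with respect to the norm with this unit ball), where
`R^2 ≤ d - (6/5) k - 4 π log d`.  Then fewer than `2^d` hyperplanes suffice to separate the faces of
`K` strictly from `o`.  In particular this holds for every simplicial polytope `K` with
`o + (d - 4 π log d)^(-1/2) B ⊆ K ⊆ o + B`, `B` the unit ball.  (By John's theorem every convex body
which is centrally symmetric about `o` has an affine image with `o + d^(-1/2) B ⊆ K ⊆ o + B`, and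
`d^(-1/2)` cannot be improved for the cross-body, which is simplicial.)  If the facets contain at most
`m` points of `X` and `R^2 log (2 + m/d) = o(d)` then `(1 + o(1))^d` hyperplanes suffice.  The number
of vertices and facets of `K` is arbitrary and no symmetry is assumed.

The proof.  The extreme points of the polar body `P` of `K` with respect to `o` are normals of facets
of `K`; if the facet contains at most `m` points of `X` then the extreme point lies on at most `m` of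
the facets of `P`, and `P` contains the ellipsoid `{v : ‖A v‖ ≤ 1}`.  So the covering theorem of the
starting files for polytopes with simple corners (`Pool/Agent/TH84/HC`, MP_eba1ef_gt
`SimplePolytopes`) applies to `P`, and every translate of the interior of `P` gives a separating
hyperplane (`Pool/Agent/H985/Sep.lean`).
-/

namespace Pool.Agent.Results.MP_5e7226_co.FacetsWithFewVertices

open scoped InnerProductSpace

/-- `K` and `o` are separated by `H`: every face of `K` (the set of the points of `K` at which a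
functional `⟪u, ·⟫`, `u ≠ 0`, is maximal on `K`) is strictly separated from `o` by one of the
hyperplanes `{x | ⟪h.1, x⟫ = h.2}` with `h ∈ H`. -/
def SeparatesFaces {d : ℕ} (K : Set (EuclideanSpace ℝ (Fin d))) (o : EuclideanSpace ℝ (Fin d))
    (H : Finset (EuclideanSpace ℝ (Fin d) × ℝ)) : Prop :=
  (∀ h ∈ H, h.1 ≠ 0) ∧
    ∀ u x₀ : EuclideanSpace ℝ (Fin d), u ≠ 0 → x₀ ∈ K → (∀ y ∈ K, ⟪u, y⟫_ℝ ≤ ⟪u, x₀⟫_ℝ) →
      ∃ h ∈ H, ⟪h.1, o⟫_ℝ < h.2 ∧ ∀ x ∈ K, ⟪u, x⟫_ℝ = ⟪u, x₀⟫_ℝ → h.2 < ⟪h.1, x⟫_ℝ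

/-- The hyperplane `{y | ⟪v, y - o⟫ = 1}` is the affine hull of a facet of `K`: `⟪v, y - o⟫ ≤ 1` on
`K`, and the vectors `y - o` with `y` in `K` and on the hyperplane span the space. -/
def IsFacetNormal {d : ℕ} (K : Set (EuclideanSpace ℝ (Fin d))) (o v : EuclideanSpace ℝ (Fin d)) :
    Prop :=
  (∀ y ∈ K, ⟪v, y - o⟫_ℝ ≤ 1) ∧
    Submodule.span ℝ {z | ∃ y ∈ K, ⟪v, y - o⟫_ℝ = 1 ∧ z = y - o} = ⊤

/-- All facets of the hull of `X`, except for those with the normals in `F`, contain at most `m`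
points of `X` and their normals satisfy `‖A v‖ ≤ R`, i.e. the distance of the facet from `o` is at
least `1 / R` for the norm whose unit ball is polar to `{v | ‖A v‖ ≤ 1}`. -/
def GoodFacets {d : ℕ} (X : Finset (EuclideanSpace ℝ (Fin d))) (o : EuclideanSpace ℝ (Fin d))
    (A : EuclideanSpace ℝ (Fin d) ≃L[ℝ] EuclideanSpace ℝ (Fin d)) (m : ℕ) (R : ℝ)
    (F : Finset (EuclideanSpace ℝ (Fin d))) : Prop :=
  ∀ v, IsFacetNormal (convexHull ℝ (X : Set (EuclideanSpace ℝ (Fin d)))) o v → v ∉ F →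
    {x : EuclideanSpace ℝ (Fin d) | x ∈ X ∧ ⟪v, x - o⟫_ℝ = 1}.ncard ≤ m ∧ ‖A v‖ ≤ R

/-- **Main theorem.** (1) facets with at most `d + k` vertices; (2) the case of polytopes between two
balls, without exceptional facets; (3) facets with any number of vertices. -/
theorem result :
    (∀ (d k : ℕ), 2 ≤ d → ∀ (X : Finset (EuclideanSpace ℝ (Fin d)))
      (o : EuclideanSpace ℝ (Fin d)), o ∉ X →
      o ∈ interior (convexHull ℝ (X : Set (EuclideanSpace ℝ (Fin d)))) →
      ∀ A : EuclideanSpace ℝ (Fin d) ≃L[ℝ] EuclideanSpace ℝ (Fin d),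
      (∀ x ∈ X, ∀ v : EuclideanSpace ℝ (Fin d), ‖A v‖ ≤ 1 → ⟪v, x - o⟫_ℝ ≤ 1) →
      ∀ R : ℝ, 1 ≤ R → R ^ 2 ≤ (d : ℝ) - 6 / 5 * k - 4 * Real.pi * Real.log d →
      ∀ F : Finset (EuclideanSpace ℝ (Fin d)), (F.card : ℝ) ≤ (1 - 33 / (d : ℝ)) * 2 ^ d →
      GoodFacets X o A (d + k) R F →
      ∃ H : Finset (EuclideanSpace ℝ (Fin d) × ℝ),
        SeparatesFaces (convexHull ℝ (X : Set (EuclideanSpace ℝ (Fin d)))) o H ∧
        H.card < 2 ^ d) ∧
    (∀ (d k : ℕ), 33 ≤ d → ∀ (X : Finset (EuclideanSpace ℝ (Fin d)))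
      (o : EuclideanSpace ℝ (Fin d)) (R : ℝ), 1 ≤ R →
      R ^ 2 ≤ (d : ℝ) - 6 / 5 * k - 4 * Real.pi * Real.log d → o ∉ X →
      (X : Set (EuclideanSpace ℝ (Fin d))) ⊆ Metric.closedBall o 1 →
      Metric.closedBall o (1 / R) ⊆ convexHull ℝ (X : Set (EuclideanSpace ℝ (Fin d))) →
      (∀ v, IsFacetNormal (convexHull ℝ (X : Set (EuclideanSpace ℝ (Fin d)))) o v →
        {x : EuclideanSpace ℝ (Fin d) | x ∈ X ∧ ⟪v, x - o⟫_ℝ = 1}.ncard ≤ d + k) →
      ∃ H : Finset (EuclideanSpace ℝ (Fin d) × ℝ),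
        SeparatesFaces (convexHull ℝ (X : Set (EuclideanSpace ℝ (Fin d)))) o H ∧
        H.card < 2 ^ d) ∧
    (∀ ε : ℝ, 0 < ε → ∃ c : ℝ, 0 < c ∧ ∃ d₀ : ℕ, ∀ d : ℕ, d₀ ≤ d →
      ∀ (m : ℕ) (R : ℝ), 1 ≤ R → R ^ 2 * Real.log (2 + m / d) ≤ c * d →
      ∀ (X : Finset (EuclideanSpace ℝ (Fin d))) (o : EuclideanSpace ℝ (Fin d)), o ∉ X →
      o ∈ interior (convexHull ℝ (X : Set (EuclideanSpace ℝ (Fin d)))) →
      ∀ A : EuclideanSpace ℝ (Fin d) ≃L[ℝ] EuclideanSpace ℝ (Fin d),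
      (∀ x ∈ X, ∀ v : EuclideanSpace ℝ (Fin d), ‖A v‖ ≤ 1 → ⟪v, x - o⟫_ℝ ≤ 1) →
      ∀ F : Finset (EuclideanSpace ℝ (Fin d)), GoodFacets X o A m R F →
      ∃ H : Finset (EuclideanSpace ℝ (Fin d) × ℝ),
        SeparatesFaces (convexHull ℝ (X : Set (EuclideanSpace ℝ (Fin d)))) o H ∧
        (H.card : ℝ) ≤ F.card + (1 + ε) ^ d) := by
  have body : ∀ {d : ℕ} (X : Finset (EuclideanSpace ℝ (Fin d))) (o : EuclideanSpace ℝ (Fin d)),
      o ∈ interior (convexHull ℝ (X : Set (EuclideanSpace ℝ (Fin d)))) →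
      TH84.HC.IsBody (H985.Sep.polar (convexHull ℝ (X : Set (EuclideanSpace ℝ (Fin d)))) o) := by
    intro d X o ho
    exact ⟨H985.Sep.convex_polar _ o, H985.Sep.isCompact_polar ho,
      H985.Sep.interior_polar_nonempty (Set.Finite.isCompact_convexHull (𝕜 := ℝ) X.finite_toSet) ho⟩
  have main : ∀ (d k : ℕ), 2 ≤ d → ∀ (X : Finset (EuclideanSpace ℝ (Fin d)))
      (o : EuclideanSpace ℝ (Fin d)), o ∉ X →
      o ∈ interior (convexHull ℝ (X : Set (EuclideanSpace ℝ (Fin d)))) →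
      ∀ A : EuclideanSpace ℝ (Fin d) ≃L[ℝ] EuclideanSpace ℝ (Fin d),
      (∀ x ∈ X, ∀ v : EuclideanSpace ℝ (Fin d), ‖A v‖ ≤ 1 → ⟪v, x - o⟫_ℝ ≤ 1) →
      ∀ R : ℝ, 1 ≤ R → R ^ 2 ≤ (d : ℝ) - 6 / 5 * k - 4 * Real.pi * Real.log d →
      ∀ F : Finset (EuclideanSpace ℝ (Fin d)), (F.card : ℝ) ≤ (1 - 33 / (d : ℝ)) * 2 ^ d →
      GoodFacets X o A (d + k) R F →
      ∃ H : Finset (EuclideanSpace ℝ (Fin d) × ℝ),
        SeparatesFaces (convexHull ℝ (X : Set (EuclideanSpace ℝ (Fin d)))) o H ∧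
        H.card < 2 ^ d := by
    intro d k hd X o hoX ho A hA R hR1 hR F hFc hF
    obtain ⟨T, hT, hcov⟩ := TH84.HC.simple_case_k d k hd _ A R (body X o ho) hR1 hR F hFc
      (T2H83.Simp.seen_of_facets (by omega) X o hoX A hA (d + k) R F hF)
    obtain ⟨H, h4, h5, h6⟩ := H985.Sep.separate ho T hcov
    exact ⟨H, ⟨h5, h6⟩, h4.trans_lt hT⟩
  refine ⟨main, ?_, ?_⟩
  · intro d k hd X o R hR1 hR hoX hX hball hfac
    have hd0 : (33 : ℝ) ≤ d := by exact_mod_cast hd
    have hRp : 0 < 1 / R := by positivity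
    have ho : o ∈ interior (convexHull ℝ (X : Set (EuclideanSpace ℝ (Fin d)))) :=
      interior_mono hball (mem_interior_iff_mem_nhds.2 (Metric.closedBall_mem_nhds o hRp))
    refine main d k (by omega) X o hoX ho (ContinuousLinearEquiv.refl ℝ _) ?_ R hR1 hR ∅ ?_ ?_
    · intro x hx v hv
      have h1 : ‖x - o‖ ≤ 1 := by
        rw [← dist_eq_norm]
        exact hX hx
      calc ⟪v, x - o⟫_ℝ ≤ ‖v‖ * ‖x - o‖ := real_inner_le_norm _ _
        _ ≤ 1 * 1 := mul_le_mul hv h1 (norm_nonneg _) zero_le_one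
        _ = 1 := one_mul 1
    · rw [Finset.card_empty, Nat.cast_zero]
      have : 33 / (d : ℝ) ≤ 1 := by
        rw [div_le_one (by linarith)]
        exact hd0
      exact mul_nonneg (by linarith) (by positivity)
    · intro v hv _
      refine ⟨hfac v hv, ?_⟩
      have h2 := H985.Sep.norm_le_of_mem_polar hRp hball v hv.1
      rw [one_div_one_div] at h2
      exact h2
  · intro ε hε
    obtain ⟨c, hc, d₀, h⟩ := TH84.HC.asympU ε hε
    refine ⟨c, hc, max d₀ 1, fun d hd m R hR1 hR X o hoX ho A hA F hF => ?_⟩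
    obtain ⟨T, hT, hcov⟩ := h d (le_trans (le_max_left _ _) hd) m R hR1 hR _ A (body X o ho) F
      (T2H83.Simp.seen_of_facets (le_trans (le_max_right _ _) hd) X o hoX A hA m R F hF)
    obtain ⟨H, h4, h5, h6⟩ := H985.Sep.separate ho T hcov
    exact ⟨H, ⟨h5, h6⟩, le_trans (by exact_mod_cast h4) hT⟩

end Pool.Agent.Results.MP_5e7226_co.FacetsWithFewVertices
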