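import Pool.Agent.T2H45.NB.F

set_option autoImplicit false

/-!
# MP_5e7226_co: interior points close to the boundary of a polytope

Let `K` be a polytope in a `d`-dimensional Euclidean space. How large is `s(K, o)` for the interior
points `o` close to the boundary? For a boundary point `p` let `k ≤ d - 1` be the dimension of the
smallest face `F` containing `p` and `j` the number of the facets containing `p`. We prove:

1. `s(K, o) ≤ b(k) + min (b(d - 1 - k), j)` for all interior points `o` close to `p`, where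
   `b(0) = 1` and `b(k)`, `k ≥ 1`, is a bound for all convex bodies in dimension `k`: `b(1) = 2`,
   `b(2) = 4`, `b(3) = 13`, `b(k) = 3 2^k k log(2k²+2k+1)`.
2. There is `δ > 0` such that for all interior points `o` at distance less than `δ` from the
   boundary `s(K, o) ≤ 5` if `d = 3`, `s(K, o) ≤ 14 < 2 ^ 4` if `d = 4`, and
   `s(K, o) ≤ 2 ^ (d - 1) + 1` if the bound of the problem is true in dimensions less than `d`.
3. In all dimensions `d ≥ 2`, `s(K, o) < 2 ^ d` for all interior points `o` close to `p` if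
   `3 d log(2d²+2d+1) < 2 ^ k, 2 ^ (d-1-k)`: so the conjecture is true (unconditionally) close to
   the relative interior points of all faces, except the faces the dimension or codimension of which
   is less than `log_2 d + log_2 log d + C`.
4. Let `K` be simple. Then `s(K, o) ≤ d + 2` (`d + 10`) for all interior points `o` at distance
   less than some `δ > 0` from the 2-skeleton (3-skeleton), and `s(K, o) < 2 ^ d` close to the
   `r`-skeleton if `3 d log(2d²+2d+1) < 2 ^ (d-1-r)`. If `d = 3` and `K` has no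
   quadrilateral facets then `s(K, o) ≤ 4`, the least possible value, for all interior points
   `o` close enough to the boundary.

The starting file `NearFacets` has the estimate `s(F, o') + 1` close to a relative interior point `o'`
of a facet `F`.

The proof. Let `L` be the linear space of `F`. The faces of `K` which contain `p` are cones over the
faces of a polytope `Q` of dimension `d - 1 - k`, the section of the projection of `K - p` to the
orthogonal complement of `L` by a hyperplane `⟪e, ·⟫ = 1`, and the point `o - p` gives an interior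
point `q` of `Q`. The hyperplanes `⟪w, ·⟫ = c` which separate the faces of `Q` from `q` give the
linear functionals `⟪w, ·⟫ - c ⟪e, ·⟫`, which are nonnegative on the faces containing `p` and
negative at `o - p`; this is true for all `o`, however close to `p`. For the faces which do
not contain `p` take the hyperplanes `⟪w, x - p⟫ + N ⟪e, x - p⟫ = c` with large `N`, where the
`⟪w, x - p⟫ = c` separate the faces of `F` from `p`. Since there are only finitely many faces,
one `N` is large enough. The uniform statements follow by compactness.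
-/

namespace Pool.Agent.Results.MP_5e7226_co.NearTheBoundary

open scoped InnerProductSpace
open Pool.Agent.R753 Module

/-- `s(K, o) ≤ n`: there are at most `n` hyperplanes `{x | ⟪h.1, x⟫ = h.2}` such that every face of
`K` (the set of the points of `K` at which a functional `⟪u, ·⟫`, `u ≠ 0`, is maximal on `K`) is
strictly separated from `o` by one of them. -/
def Separable {E : Type*} [NormedAddCommGroup E] [InnerProductSpace ℝ E] (n : ℕ) (K : Set E)
    (o : E) : Prop :=
  ∃ H : Finset (E × ℝ), H.card ≤ n ∧ (∀ h ∈ H, h.1 ≠ 0) ∧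
    ∀ u x₀ : E, u ≠ 0 → x₀ ∈ K → (∀ y ∈ K, ⟪u, y⟫_ℝ ≤ ⟪u, x₀⟫_ℝ) →
      ∃ h ∈ H, ⟪h.1, o⟫_ℝ < h.2 ∧ ∀ x ∈ K, ⟪u, x⟫_ℝ = ⟪u, x₀⟫_ℝ → h.2 < ⟪h.1, x⟫_ℝ

/-- `s(K, o) ≤ n` for all interior points `o` of `K` at distance less than some `δ > 0` from some
point of `S`. -/
def BoundNear {E : Type*} [NormedAddCommGroup E] [InnerProductSpace ℝ E] (n : ℕ) (K S : Set E) :
    Prop :=
  ∃ δ : ℝ, 0 < δ ∧ ∀ o ∈ interior K, (∃ p ∈ S, dist o p < δ) → Separable n K o

/-- The bound of the problem in all dimensions less than `d`. -/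
def BoundBelow (d : ℕ) : Prop :=
  ∀ k < d, ∀ (V : Type) [NormedAddCommGroup V] [InnerProductSpace ℝ V] [FiniteDimensional ℝ V],
    finrank ℝ V = k → ∀ C : Set V, Convex ℝ C → IsCompact C → ∀ c ∈ interior C,
      Separable (2 ^ k) C c

/-- The numbers `b(k)`. -/
noncomputable def bound : ℕ → ℕ
  | 0 => 1
  | 1 => 2
  | 2 => 4
  | 3 => 13
  | (k + 4) => ⌊(3 : ℝ) * 2 ^ (k + 4) * (((k + 4 : ℕ) : ℝ) *
      Real.log (2 * ((k + 4 : ℕ) : ℝ) ^ 2 + 2 * ((k + 4 : ℕ) : ℝ) + 1))⌋₊

/-- The function `3 d log(2d²+2d+1)`. -/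
noncomputable def lam (d : ℕ) : ℝ := 3 * (d * Real.log (2 * (d : ℝ) ^ 2 + 2 * d + 1))

section polytope

variable {E : Type} [NormedAddCommGroup E] [InnerProductSpace ℝ E]

/-- The set described by the inequalities `⟪h.1, x⟫ ≤ h.2`, `h ∈ I`. -/
def polytope (I : Finset (E × ℝ)) : Set E := {x | ∀ h ∈ I, ⟪h.1, x⟫_ℝ ≤ h.2}

/-- The inequalities which are equalities at `x`. -/
def active (I : Finset (E × ℝ)) (x : E) : Set (E × ℝ) := {h | h ∈ I ∧ ⟪h.1, x⟫_ℝ = h.2}

/-- The smallest face of the polytope which contains `p`. -/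
def smallestFace (I : Finset (E × ℝ)) (p : E) : Set E :=
  {x | x ∈ polytope I ∧ active I p ⊆ active I x}

/-- The dimension of the smallest face which contains `p`. -/
noncomputable def faceDim (I : Finset (E × ℝ)) (p : E) : ℕ :=
  finrank ℝ (vectorSpan ℝ (smallestFace I p))

/-- The `r`-skeleton. -/
def skeleton (I : Finset (E × ℝ)) (r : ℕ) : Set E := {x | x ∈ polytope I ∧ faceDim I x ≤ r}

/-- The polytope is simple (and there are no superfluous inequalities which are equalities at some
point): the normal vectors of the inequalities which are equalities at a point are linearly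
independent. -/
def IsSimple (I : Finset (E × ℝ)) : Prop :=
  ∀ x ∈ polytope I, LinearIndependent ℝ (fun h : active I x => (h : E × ℝ).1)

/-- `F` is a quadrilateral: the hull of two segments which cross at a relative interior point `p`. -/
def IsQuadrilateral (F : Set E) : Prop :=
  ∃ (p v w : E) (s t : ℝ), LinearIndependent ℝ ![v, w] ∧ 0 < s ∧ 0 < t ∧
    F = convexHull ℝ {p + v, p - s • v, p + w, p - t • w}

end polytope

theorem result (E : Type) [NormedAddCommGroup E] [InnerProductSpace ℝ E] [FiniteDimensional ℝ E]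
    (d : ℕ) (hd : finrank ℝ E = d)
    -- a polytope, given by inequalities with nonzero normal vectors
    (I : Finset (E × ℝ)) (hI : ∀ h ∈ I, h.1 ≠ 0) (hK : IsCompact (polytope I))
    (hKi : (interior (polytope I)).Nonempty) :
    -- 1. the local bound
    (∀ p ∈ frontier (polytope I), faceDim I p < d ∧
      BoundNear (bound (faceDim I p) + min (bound (d - 1 - faceDim I p)) (active I p).ncard)
        (polytope I) {p}) ∧
    -- 2. close to the boundary
    (d = 3 → BoundNear 5 (polytope I) (frontier (polytope I))) ∧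
    (d = 4 → BoundNear 14 (polytope I) (frontier (polytope I))) ∧
    (BoundBelow d → BoundNear (2 ^ (d - 1) + 1) (polytope I) (frontier (polytope I))) ∧
    -- 3. close to the faces which do not have very small dimension or codimension
    (2 ≤ d → ∀ p ∈ frontier (polytope I), lam d < 2 ^ faceDim I p →
      lam d < 2 ^ (d - 1 - faceDim I p) → BoundNear (2 ^ d - 1) (polytope I) {p}) ∧
    -- 4. simple polytopes
    (IsSimple I →
      (3 ≤ d → BoundNear (d + 2) (polytope I) (skeleton I 2)) ∧
      (4 ≤ d → BoundNear (d + 10) (polytope I) (skeleton I 3)) ∧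
      (2 ≤ d → ∀ r < d, lam d < 2 ^ (d - 1 - r) →
        BoundNear (2 ^ d - 1) (polytope I) (skeleton I r)) ∧
      (d = 3 → (∀ p, ¬ IsQuadrilateral (smallestFace I p)) →
        BoundNear 4 (polytope I) (frontier (polytope I)))) := by
  classical
  have hact : ∀ x : E, (T2H45.NB.act I x : Set (E × ℝ)) = active I x := by
    intro x
    ext h
    rw [Finset.mem_coe, T2H45.NB.mem_act]
    rfl
  have hactc : ∀ x : E, (active I x).ncard = (T2H45.NB.act I x).card := by
    intro x
    rw [← hact, Set.ncard_coe_finset]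
  have hsf : ∀ x : E, smallestFace I x
      = {y | y ∈ SJ.Poly I ∧ T2H45.NB.act I x ⊆ T2H45.NB.act I y} := by
    intro x
    ext y
    show y ∈ polytope I ∧ active I x ⊆ active I y ↔ _
    rw [← hact, ← hact, Finset.coe_subset]
    rfl
  have hfd : ∀ x ∈ polytope I, faceDim I x = finrank ℝ (T2H45.NB.AA I x)ᗮ := by
    intro x hx
    rw [faceDim, hsf, T2H45.NB.faceDim_eq hx]
  have hfr : ∀ p ∈ frontier (polytope I), p ∈ polytope I ∧ (T2H45.NB.act I p).Nonempty := by
    intro p hp
    have h1 : p ∈ polytope I := hK.isClosed.frontier_subset hp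
    exact ⟨h1, T2H45.NB.act_of_frontier h1 hp.2⟩
  have hdim : ∀ p ∈ frontier (polytope I),
      finrank ℝ (T2H45.NB.MM I p) + 1 + faceDim I p = d := by
    intro p hp
    rw [hfd p (hfr p hp).1, T2H45.NB.finrank_MM (T2H45.NB.ef_ne hI hKi (hfr p hp).2), hd]
  have hloc : ∀ p ∈ frontier (polytope I), faceDim I p < d ∧
      BoundNear (bound (faceDim I p) + min (bound (d - 1 - faceDim I p)) (active I p).ncard)
        (polytope I) {p} := by
    intro p hp
    obtain ⟨hpK, hJ⟩ := hfr p hp
    have h1 := hdim p hp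
    have hF := T2H45.NB.sepd_all (faceDim I p) _ (hfd p hpK).symm _
      (T2H45.NB.FF_compact hK p) (T2H45.NB.FF_interior hpK)
    refine ⟨by omega, ?_⟩
    rcases le_total (bound (d - 1 - faceDim I p)) (active I p).ncard with hle | hle
    · rw [min_eq_left hle]
      have h2 : d - 1 - faceDim I p = finrank ℝ (T2H45.NB.MM I p) := by omega
      rw [h2]
      obtain ⟨ε, hε, h⟩ := T2H45.NB.near hI hK hKi hpK hJ (T2H45.NB.one_le_bnd _)
        (T2H45.NB.one_le_bnd _) hF (fun C _ hC2 hC3 => T2H45.NB.sepd_all _ _ rfl C hC2 hC3)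
      refine ⟨ε, hε, fun o ho hop => ?_⟩
      obtain ⟨q, rfl, hq⟩ := hop
      exact h o ho hq
    · rw [min_eq_right hle, hactc]
      obtain ⟨ε, hε, h⟩ := T2H45.NB.near_simple hI hK hKi hpK hJ (T2H45.NB.one_le_bnd _) hF
      refine ⟨ε, hε, fun o ho hop => ?_⟩
      obtain ⟨q, rfl, hq⟩ := hop
      exact h o ho hq
  have hmono : ∀ {n m : ℕ} {K S : Set E}, n ≤ m → BoundNear n K S → BoundNear m K S := by
    rintro n m K S hnm ⟨δ, hδ, h⟩
    refine ⟨δ, hδ, fun o ho hop => ?_⟩
    obtain ⟨H, h1, h2⟩ := h o ho hop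
    exact ⟨H, h1.trans hnm, h2⟩
  -- the estimate of `b`
  have hb : ∀ k ≤ d, 2 ≤ d → (bound k : ℝ) ≤ 2 ^ k * lam d := fun k hk hd2 =>
    T2H45.NB.bnd_le hd2 hk
  have hsepd_all : ∀ (k : ℕ) (V : Type) [NormedAddCommGroup V] [InnerProductSpace ℝ V]
      [FiniteDimensional ℝ V], finrank ℝ V = k → ∀ C : Set V, IsCompact C →
      0 ∈ interior C → SJ.Sepd (bound k) C 0 := T2H45.NB.sepd_all
  refine ⟨hloc, ?_, ?_, ?_, ?_, ?_⟩
  · intro h3
    refine T2H45.NB.boundary hd bound T2H45.NB.one_le_bnd
      (fun k _ V _ _ _ hV C _ hC2 hC3 => hsepd_all k V hV C hC2 hC3) ?_ hI hK hKi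
    intro k m hkm
    obtain ⟨rfl, rfl⟩ | ⟨rfl, rfl⟩ | ⟨rfl, rfl⟩ : (k = 0 ∧ m = 2) ∨ (k = 1 ∧ m = 1) ∨
        (k = 2 ∧ m = 0) := by omega
    all_goals simp [bound]
  · intro h4
    refine T2H45.NB.boundary hd bound T2H45.NB.one_le_bnd
      (fun k _ V _ _ _ hV C _ hC2 hC3 => hsepd_all k V hV C hC2 hC3) ?_ hI hK hKi
    intro k m hkm
    obtain ⟨rfl, rfl⟩ | ⟨rfl, rfl⟩ | ⟨rfl, rfl⟩ | ⟨rfl, rfl⟩ : (k = 0 ∧ m = 3) ∨
        (k = 1 ∧ m = 2) ∨ (k = 2 ∧ m = 1) ∨ (k = 3 ∧ m = 0) := by omega
    all_goals simp [bound]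
  · intro hbelow
    refine T2H45.NB.boundary hd (fun k => 2 ^ k) (fun k => Nat.one_le_two_pow)
      (fun k hk V _ _ _ hV C hC1 hC2 hC3 => hbelow k hk V hV C hC1 hC2 0 hC3) ?_ hI hK hKi
    intro k m hkm
    have h1 : d - 1 = k + m := by omega
    rw [h1, pow_add]
    have h2 : 1 ≤ 2 ^ k := Nat.one_le_two_pow
    have h3 : 1 ≤ 2 ^ m := Nat.one_le_two_pow
    show 2 ^ k + 2 ^ m ≤ 2 ^ k * 2 ^ m + 1
    obtain ⟨a, ha⟩ := Nat.exists_eq_add_of_le h2
    obtain ⟨b, hb⟩ := Nat.exists_eq_add_of_le h3
    rw [ha, hb]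
    nlinarith [Nat.zero_le (a * b)]
  · intro hd2 p hp hl1 hl2
    obtain ⟨hk, hnear⟩ := hloc p hp
    refine hmono ?_ hnear
    set k := faceDim I p with hkdef
    set m := d - 1 - k with hm
    have h1 := hb k (by omega) hd2
    have h2 := hb m (by omega) hd2
    have h3 : (2 : ℝ) ^ d = 2 * (2 ^ k * 2 ^ m) := by
      rw [← pow_add, ← pow_succ']
      congr 1
      omega
    have h4 : (bound k : ℝ) + bound m < 2 ^ d := by
      have h5 : (2 : ℝ) ^ k * lam d < 2 ^ k * 2 ^ m := by gcongr
      have h6 : (2 : ℝ) ^ m * lam d < 2 ^ m * 2 ^ k := by gcongr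
      rw [h3]
      nlinarith
    have h5 : bound k + bound m < 2 ^ d := by exact_mod_cast h4
    have h6 := min_le_left (bound m) (active I p).ncard
    omega
  · intro hs
    have hlin : ∀ x ∈ SJ.Poly I,
        LinearIndependent ℝ (fun h : T2H45.NB.act I x => h.1.1) := by
      intro x hx
      have h1 := hs x hx
      let e : T2H45.NB.act I x ≃ active I x := Equiv.subtypeEquivRight fun h => by
        rw [← hact x]; rfl
      exact (linearIndependent_equiv e).2 h1
    have hfc : ∀ x ∈ polytope I, (T2H45.NB.act I x).card + faceDim I x = d := by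
      intro x hx
      have h1 := Submodule.finrank_add_finrank_orthogonal (T2H45.NB.AA I x)
      rw [hd, T2H45.NB.finrank_AA (hlin x hx), ← hfd x hx] at h1
      exact h1
    have hskel : ∀ r N : ℕ, r < d → (∀ k ≤ r, bound k + (d - k) ≤ N) →
        BoundNear N (polytope I) (skeleton I r) := by
      intro r N hrd hN
      obtain ⟨δ, hδ, h⟩ := T2H45.NB.skeleton hd bound T2H45.NB.one_le_bnd hsepd_all hI hK hKi
        hlin hrd hN
      refine ⟨δ, hδ, fun o ho hop => h o ho ?_⟩
      obtain ⟨p, ⟨hp1, hp2⟩, hp3⟩ := hop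
      refine ⟨p, ⟨hp1, ?_⟩, hp3⟩
      have := hfc p hp1
      omega
    refine ⟨fun h3 => hskel 2 _ (by omega) ?_, fun h4 => hskel 3 _ (by omega) ?_, ?_, ?_⟩
    · intro k hk
      interval_cases k <;> simp only [bound] <;> omega
    · intro k hk
      interval_cases k <;> simp only [bound] <;> omega
    · intro hd2 r hr hl
      refine hskel r _ hr fun k hk => ?_
      have h1 := hb k (by omega) hd2
      have hlam : 0 < lam d := by
        have h5 := T2H45.NB.log_ge hd2
        have h6 : (2 : ℝ) ≤ d := by exact_mod_cast hd2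
        unfold lam
        nlinarith
      have h2 : (2 : ℝ) ^ k * lam d < 2 ^ (d - 1) := by
        have h3 : (2 : ℝ) ^ (d - 1) = 2 ^ r * 2 ^ (d - 1 - r) := by
          rw [← pow_add]
          congr 1
          omega
        rw [h3]
        calc (2 : ℝ) ^ k * lam d ≤ 2 ^ r * lam d := by
              gcongr
              norm_num
          _ < 2 ^ r * 2 ^ (d - 1 - r) := by gcongr
      have h3 : (bound k : ℝ) < 2 ^ (d - 1) := h1.trans_lt h2
      have h4 : bound k < 2 ^ (d - 1) := by exact_mod_cast h3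
      have h5 : d - 1 < 2 ^ (d - 1) := Nat.lt_two_pow_self
      have h6 : 2 ^ d = 2 * 2 ^ (d - 1) := by
        rw [← pow_succ']
        congr 1
        omega
      omega
    · intro h3 hq
      refine T2H45.NB.four (by omega) hI hK hKi hlin fun p v w s t hvw hs ht he => ?_
      exact hq p ⟨p, v, w, s, t, hvw, hs, ht, by rw [hsf]; exact he⟩

end Pool.Agent.Results.MP_5e7226_co.NearTheBoundary
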