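import Mathlib
import Pool.Agent.TH591.Sq.Body
import Pool.Agent.H985.Sep
import Pool.Agent.T2H83.Zon.Base

set_option autoImplicit false

/-!
# MP_5e7226_co: zonoids, Minkowski sums and Firey sums of small centrally symmetric sets

Let `q ≥ 1` and let `A_ω` be a measurable family of centrally symmetric compact convex sets of
dimension at most `n` in `ℝ^d`, with the support functions `h_ω` (seminorms which vanish on a
subspace of codimension at most `n`).  Let `K` be a convex body with the interior point `o` whose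
support function with respect to `o` is `(∫ h_ω^q dμ(ω))^(1/q)`, i.e. `K - o` is the Firey `q`-sum
(or integral) of the `A_ω`.  For `q = 1` these are the Minkowski sums and integrals of the `A_ω`;
for `q = n = 1` they are the zonoids with centre `o`, in particular the zonotopes, and for `n = 1`
the `L_q`-zonoids.

We prove that the faces of `K` can be separated from `o` by at most
`1 + 13 d log(4d+1) 2^d e^(-2s)` hyperplanes, where `s = √(d/(n+q+1)) / 16280`, and by less than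
`2^d` hyperplanes if `s ≥ 5` and `s ≥ log d`.  So for given `n` and `q` we have `s(K, o) < 2^d`
in all sufficiently high dimensions `d`: both parts of the conjecture are true for these bodies.

The proof.  The polar body of `K` with respect to `o` is `{v : ∫ h_ω(v)^q dμ(ω) ≤ 1}`, the unit
ball of a subspace of an `L_q`-sum of normed spaces of dimension at most `n`.  It is covered by so
many translates of its interior by the starting theorem behind MP_eba1ef_gt
`LqSumsOfSmallSpaces` (`Pool/Agent/TH591/Sq`), and every translate gives a separating hyperplane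
(`Pool/Agent/H985/Sep.lean`).
-/

namespace Pool.Agent.Results.MP_5e7226_co.SumsOfSmallSets

open MeasureTheory
open scoped InnerProductSpace

universe u

/-- `K` and `o` are separated by `H`: every face of `K` (the set of the points of `K` at which a
functional `⟪u, ·⟫`, `u ≠ 0`, is maximal on `K`) is strictly separated from `o` by one of the
hyperplanes `{x | ⟪h.1, x⟫ = h.2}` with `h ∈ H`. -/
def SeparatesFaces {d : ℕ} (K : Set (EuclideanSpace ℝ (Fin d))) (o : EuclideanSpace ℝ (Fin d))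
    (H : Finset (EuclideanSpace ℝ (Fin d) × ℝ)) : Prop :=
  (∀ h ∈ H, h.1 ≠ 0) ∧
    ∀ u x₀ : EuclideanSpace ℝ (Fin d), u ≠ 0 → x₀ ∈ K → (∀ y ∈ K, ⟪u, y⟫_ℝ ≤ ⟪u, x₀⟫_ℝ) →
      ∃ h ∈ H, ⟪h.1, o⟫_ℝ < h.2 ∧ ∀ x ∈ K, ⟪u, x⟫_ℝ = ⟪u, x₀⟫_ℝ → h.2 < ⟪h.1, x⟫_ℝ

/-- `K` is a Firey `q`-sum of small symmetric sets about `o`: its support function with respect to
`o` is `(∫ h_ω^q dμ(ω))^(1/q)`, where `h_ω` is a measurable family of seminorms, each of which
vanishes on a subspace `W` of codimension at most `n`, on an s-finite measure space `Ω`. -/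
def IsSmallSum {d : ℕ} (n : ℕ) (q : ℝ) (K : Set (EuclideanSpace ℝ (Fin d)))
    (o : EuclideanSpace ℝ (Fin d)) : Prop :=
  ∃ (Ω : Type u) (_ : MeasurableSpace Ω) (μ : Measure Ω) (_ : SFinite μ)
    (h : Ω → Seminorm ℝ (EuclideanSpace ℝ (Fin d))),
    Measurable (fun z : Ω × EuclideanSpace ℝ (Fin d) => h z.1 z.2) ∧
    (∀ ω, ∃ W : Submodule ℝ (EuclideanSpace ℝ (Fin d)),
      (∀ w ∈ W, h ω w = 0) ∧ d ≤ Module.finrank ℝ W + n) ∧
    (∀ v, Integrable (fun ω => h ω v ^ q) μ) ∧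
    ∀ v, IsGreatest {t : ℝ | ∃ y ∈ K, t = ⟪v, y - o⟫_ℝ} ((∫ ω, h ω v ^ q ∂μ) ^ (1 / q))

/-- `A` is a compact convex set, symmetric about `0`, of dimension at most `n`. -/
def IsSmallSymmetric {d : ℕ} (n : ℕ) (A : Set (EuclideanSpace ℝ (Fin d))) : Prop :=
  A.Nonempty ∧ Convex ℝ A ∧ IsCompact A ∧ (∀ x ∈ A, -x ∈ A) ∧
    Module.finrank ℝ (Submodule.span ℝ A) ≤ n

/-- the polar body of a Firey sum -/
theorem polar_eq {d : ℕ} {q : ℝ} (hq : 1 ≤ q) {K : Set (EuclideanSpace ℝ (Fin d))}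
    {o : EuclideanSpace ℝ (Fin d)} {Ω : Type u} [MeasurableSpace Ω] (μ : Measure Ω)
    (h : Ω → Seminorm ℝ (EuclideanSpace ℝ (Fin d)))
    (hK : ∀ v, IsGreatest {t : ℝ | ∃ y ∈ K, t = ⟪v, y - o⟫_ℝ} ((∫ ω, h ω v ^ q ∂μ) ^ (1 / q))) :
    H985.Sep.polar K o = {v | ∫ ω, h ω v ^ q ∂μ ≤ 1} := by
  have hq0 : 0 < q := by linarith
  ext v
  have hI : 0 ≤ ∫ ω, h ω v ^ q ∂μ :=
    integral_nonneg fun ω => Real.rpow_nonneg (apply_nonneg _ _) _
  have h1 : (∫ ω, h ω v ^ q ∂μ) ^ (1 / q) ≤ 1 ↔ ∫ ω, h ω v ^ q ∂μ ≤ 1 := by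
    have := Real.rpow_le_rpow_iff hI zero_le_one (show 0 < 1 / q by positivity)
    rwa [Real.one_rpow] at this
  constructor
  · intro hv
    obtain ⟨y, hy, he⟩ := (hK v).1
    have h2 := hv y hy
    rw [← he] at h2
    exact h1.1 h2
  · intro hv y hy
    exact ((hK v).2 ⟨y, hy, rfl⟩).trans (h1.2 hv)

/-- finite Minkowski sums of small symmetric sets belong to the class -/
theorem isSmallSum_of_finite {d n N : ℕ} (A : Fin N → Set (EuclideanSpace ℝ (Fin d)))
    (hA : ∀ i, IsSmallSymmetric n (A i)) (K : Set (EuclideanSpace ℝ (Fin d)))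
    (o : EuclideanSpace ℝ (Fin d))
    (hK : K = {x | ∃ a : Fin N → EuclideanSpace ℝ (Fin d), (∀ i, a i ∈ A i) ∧
      x = o + ∑ i, a i}) : IsSmallSum.{0} n 1 K o := by
  classical
  let h : Fin N → Seminorm ℝ (EuclideanSpace ℝ (Fin d)) := fun i =>
    T2H83.Zon.sem (A i) (hA i).1 (hA i).2.2.1 (hA i).2.2.2.1
  have hint : ∀ v, ∫ i, h i v ^ (1 : ℝ) ∂(Measure.count : Measure (Fin N)) = ∑ i, h i v := by
    intro v
    simp
  refine ⟨Fin N, ⊤, Measure.count, inferInstance, h, ?_, fun i => ?_, fun v => ?_, fun v => ?_⟩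
  · exact measurable_from_prod_countable_right fun i =>
      (T2H83.Zon.sem_continuous (A i) (hA i).1 (hA i).2.2.1 (hA i).2.2.2.1).measurable
  · obtain ⟨W, h1, h2⟩ := T2H83.Zon.sem_vanish (A i) (hA i).1 (hA i).2.2.1 (hA i).2.2.2.1 n
      (hA i).2.2.2.2
    exact ⟨W, h1, by simpa using h2⟩
  · exact Integrable.of_finite
  · rw [hint, one_div_one, Real.rpow_one]
    constructor
    · choose a ha1 ha2 using fun i => T2H83.Zon.exists_supp (hA i).1 (hA i).2.2.1 v
      refine ⟨o + ∑ i, a i, ?_, ?_⟩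
      · rw [hK]
        exact ⟨a, ha1, rfl⟩
      · rw [add_sub_cancel_left, inner_sum]
        exact Finset.sum_congr rfl fun i _ => (ha2 i).symm
    · rintro t ⟨y, hy, rfl⟩
      rw [hK] at hy
      obtain ⟨a, ha, rfl⟩ := hy
      rw [add_sub_cancel_left, inner_sum]
      exact Finset.sum_le_sum fun i _ => T2H83.Zon.le_supp (hA i).2.2.1 v (ha i)

/-- **Main theorem.** (1) the quantitative bound; (2) for given `n` and `q` fewer than `2 ^ d`
hyperplanes suffice in high dimensions; (3) the class contains the Minkowski sums of finitely many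
compact convex sets of dimension at most `n` symmetric about `0` (translated by `o`); (4) for
`n = 1` it contains the zonoids with centre `o` and, more generally, the `L_q`-zonoids. -/
theorem result :
    -- (1) the quantitative bound
    (∀ (d n : ℕ) (q : ℝ), 2 ≤ d → 1 ≤ q → ∀ (K : Set (EuclideanSpace ℝ (Fin d)))
      (o : EuclideanSpace ℝ (Fin d)), Convex ℝ K → IsCompact K → o ∈ interior K →
      IsSmallSum.{u} n q K o → ∀ s : ℝ, s = √(d / (n + q + 1)) / 16280 →
      ∃ H : Finset (EuclideanSpace ℝ (Fin d) × ℝ), SeparatesFaces K o H ∧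
        (H.card : ℝ) ≤ 1 + 13 * d * Real.log (4 * d + 1) * 2 ^ d * Real.exp (-(2 * s)) ∧
        (5 ≤ s → Real.log d ≤ s → H.card < 2 ^ d)) ∧
    -- (2) high dimensions
    (∀ (n : ℕ) (q : ℝ), 1 ≤ q → ∃ d₀ : ℕ, ∀ d : ℕ, d₀ ≤ d →
      ∀ (K : Set (EuclideanSpace ℝ (Fin d))) (o : EuclideanSpace ℝ (Fin d)),
        Convex ℝ K → IsCompact K → o ∈ interior K → IsSmallSum.{u} n q K o →
        ∃ H : Finset (EuclideanSpace ℝ (Fin d) × ℝ), SeparatesFaces K o H ∧ H.card < 2 ^ d) ∧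
    -- (3) Minkowski sums
    (∀ (d n N : ℕ) (A : Fin N → Set (EuclideanSpace ℝ (Fin d))),
      (∀ i, IsSmallSymmetric n (A i)) → ∀ (K : Set (EuclideanSpace ℝ (Fin d)))
      (o : EuclideanSpace ℝ (Fin d)),
      K = {x | ∃ a : Fin N → EuclideanSpace ℝ (Fin d), (∀ i, a i ∈ A i) ∧ x = o + ∑ i, a i} →
      IsSmallSum.{0} n 1 K o) ∧
    -- (4) zonoids
    (∀ (d : ℕ) (q : ℝ), 1 ≤ q → ∀ (μ : Measure (EuclideanSpace ℝ (Fin d))) [SFinite μ],
      (∀ v, Integrable (fun u => |⟪v, u⟫_ℝ| ^ q) μ) → ∀ (K : Set (EuclideanSpace ℝ (Fin d)))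
      (o : EuclideanSpace ℝ (Fin d)),
      (∀ v, IsGreatest {t : ℝ | ∃ y ∈ K, t = ⟪v, y - o⟫_ℝ} ((∫ u, |⟪v, u⟫_ℝ| ^ q ∂μ) ^ (1 / q))) →
      IsSmallSum.{0} 1 q K o) := by
  have main : ∀ (d n : ℕ) (q : ℝ), 2 ≤ d → 1 ≤ q → ∀ (K : Set (EuclideanSpace ℝ (Fin d)))
      (o : EuclideanSpace ℝ (Fin d)), o ∈ interior K →
      IsSmallSum.{u} n q K o → ∀ s : ℝ, s = √(d / (n + q + 1)) / 16280 →
      ∃ H : Finset (EuclideanSpace ℝ (Fin d) × ℝ), SeparatesFaces K o H ∧
        (H.card : ℝ) ≤ 1 + 13 * d * Real.log (4 * d + 1) * 2 ^ d * Real.exp (-(2 * s)) ∧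
        (5 ≤ s → Real.log d ≤ s → H.card < 2 ^ d) := by
    rintro d n q hd hq K o ho ⟨Ω, hΩ, μ, hμ, h, hm, hr, hi, hK⟩ s hs
    have hP := polar_eq hq μ h hK
    obtain ⟨T, h1, h2, h3⟩ := TH591.Sq.cover_s d hd (H985.Sep.polar K o)
      (H985.Sep.isCompact_polar ho).isBounded n q hq μ h hm hr hi hP s hs
    obtain ⟨H, h4, h5, h6⟩ := H985.Sep.separate ho T h1
    exact ⟨H, ⟨h5, h6⟩, le_trans (by exact_mod_cast h4) h2,
      fun hs5 hds => h4.trans_lt (h3 hs5 hds)⟩
  refine ⟨fun d n q hd hq K o _ _ ho hS s hs => main d n q hd hq K o ho hS s hs,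
    fun n q hq => ?_, fun d n N A hA K o hK => isSmallSum_of_finite A hA K o hK,
    fun d q hq μ _ hμ K o hK => ?_⟩
  · obtain ⟨d₀, hd₀⟩ := TH591.Sq.exists_dim n q hq
    refine ⟨max d₀ 2, fun d hd K o _ _ ho hS => ?_⟩
    obtain ⟨h5, hlog⟩ := hd₀ d (le_trans (le_max_left _ _) hd)
    obtain ⟨H, h1, -, h3⟩ := main d n q (le_trans (le_max_right _ _) hd) hq K o ho hS _ rfl
    exact ⟨H, h1, h3 h5 hlog⟩
  · let L : EuclideanSpace ℝ (Fin d) → EuclideanSpace ℝ (Fin d) →ₗ[ℝ] ℝ := fun u =>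
      (innerSL ℝ u).toLinearMap
    let h : EuclideanSpace ℝ (Fin d) → Seminorm ℝ (EuclideanSpace ℝ (Fin d)) := fun u =>
      (normSeminorm ℝ ℝ).comp (L u)
    have hh : ∀ u v, h u v = |⟪v, u⟫_ℝ| := by
      intro u v
      show ‖⟪u, v⟫_ℝ‖ = _
      rw [Real.norm_eq_abs, real_inner_comm]
    refine ⟨EuclideanSpace ℝ (Fin d), inferInstance, μ, inferInstance, h, ?_,
      fun u => ⟨LinearMap.ker (L u), ?_, ?_⟩, fun v => ?_, fun v => ?_⟩
    · simp only [hh]
      exact (by fun_prop : Continuous fun z : EuclideanSpace ℝ (Fin d) × EuclideanSpace ℝ (Fin d) =>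
        |⟪z.2, z.1⟫_ℝ|).measurable
    · intro w hw
      rw [LinearMap.mem_ker] at hw
      show ‖L u w‖ = 0
      rw [hw, norm_zero]
    · have h1 := LinearMap.finrank_range_add_finrank_ker (L u)
      have h2 : Module.finrank ℝ (LinearMap.range (L u)) ≤ 1 := by
        have := Submodule.finrank_le (LinearMap.range (L u))
        simpa using this
      have h3 : Module.finrank ℝ (EuclideanSpace ℝ (Fin d)) = d := by simp
      omega
    · simp only [hh]
      exact hμ v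
    · simp only [hh]
      exact hK v

end Pool.Agent.Results.MP_5e7226_co.SumsOfSmallSets
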