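import Pool.Agent.T2H45.FP.B
import Pool.Agent.T2H45.NB.F

set_option autoImplicit false

/-!
# MP_5e7226_co: bodies with many symmetries in a small subspace

Let `K` be a convex body in a `d`-dimensional Euclidean space `E`, `o` an interior point, and let
`V_i` be pairwise orthogonal subspaces of dimensions `m_i ≥ 1` such that `K` is invariant about `o`
under a set `Γ_i` of linear isometries of each `V_i` (which leave the component in `V_i`ᗮ fixed)
such that the images of each unit vector of `V_i` come within the angle `arcsin (1 / m_i)` of each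
unit vector of `V_i`. Examples are the rotations of `V_i` if `m_i ≥ 2`, or the rotations of a plane by
the multiples of `2π/7`. NOTHING is assumed about the free part `W = (⨁ V_i)ᗮ`, of dimension `e ≥ 1`:
neither about the section `K ∩ (o + W)` nor about the way in which the sections of `K` by the
translates of `⨁ V_i` vary with the component in `W`. We prove:

1. `s(K, o) ≤ ∏ (m_i + 2) * s(K ∩ (o + W), o)`. So if all `m_i ≥ 2`, then the bound `2 ^ e` of the
   problem for the section `K ∩ (o + W)` implies the bound `2 ^ d` for `K`.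
2. If `e ≤ 2` and `m_i ≥ 2` for all `i` then `s(K, o) ≤ 2 ^ d`, and `s(K, o) < 2 ^ d` if some
   `m_i ≥ 3`. If `e = 3` then `s(K, o) ≤ 13 ∏ (m_i + 2)`, for instance `s(K, o) < 2 ^ d` if some
   `m_i ≥ 4` and all `m_i ≥ 2`.
3. For all `e ≥ 2`, `s(K, o) < 2 ^ d` if `3 e log(2e²+2e+1) ∏ (m_i + 2) < ∏ 2 ^ m_i`. So, in all
   dimensions `d`, both parts of the conjecture are true for every body `K` with the rotational
   symmetries in a single subspace `V`, of dimension `m ≥ 2 log_2 d + C` only.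
4. The case of one block, with all the isometries of `V`: the bodies of revolution about the flat
   `o + Vᗮ`.

The starting file `RotationalBlocks` is the case without a free part (`e = 0`).

The proof, for `o = 0`. By convexity and symmetry `K` contains with `x` also `x` without its
components in some of the `V_i`. If `x` maximises `⟪u, ·⟫` on `K` and the component `u_i` of `u` in
`V_i` is not `0`, then the angle between `x_i` and `u_i` is less than `arcsin (1 / m_i)`, so
`⟪t_i, x_i⟫ ≥ c ‖x_i‖` for a vertex `t_i = t_i(u_i)` of a regular simplex. Put `t_i = 0` if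
`u_i = 0`. Let `⟪w, ·⟫ = b` be the hyperplanes in `W` for the section. We claim that for a large
number `n` all faces of `K` are separated from `0` by the hyperplanes `n ∑ ⟪t_i, ·⟫ + ⟪w, ·⟫ = b`.
Otherwise there are, for all `n`, faces `F_n` with normals `u_n` and points `x_{n,w}` of `F_n` on the
inner sides. In the limit we get points `x_w` of one face, with the normal `u`, such that for every `i`
the components of all `x_w` in `V_i`, or the component of `u`, vanish, and `⟪w, x_w⟫ ≤ b`. The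
components of the `x_w` in `W` are in `K` and they are also points of this face, so in one face of the
section: a contradiction.
-/

namespace Pool.Agent.Results.MP_5e7226_co.SymmetricBlocksFreePart

open scoped InnerProductSpace
open Module

/-- `s(K, o) ≤ n`: there are at most `n` hyperplanes `{x | ⟪h.1, x⟫ = h.2}` such that every face of
`K` (the set of the points of `K` at which a functional `⟪u, ·⟫`, `u ≠ 0`, is maximal on `K`) is
strictly separated from `o` by one of them. -/
def Separable {E : Type*} [NormedAddCommGroup E] [InnerProductSpace ℝ E] (n : ℕ) (K : Set E)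
    (o : E) : Prop :=
  ∃ H : Finset (E × ℝ), H.card ≤ n ∧ (∀ h ∈ H, h.1 ≠ 0) ∧
    ∀ u x₀ : E, u ≠ 0 → x₀ ∈ K → (∀ y ∈ K, ⟪u, y⟫_ℝ ≤ ⟪u, x₀⟫_ℝ) →
      ∃ h ∈ H, ⟪h.1, o⟫_ℝ < h.2 ∧ ∀ x ∈ K, ⟪u, x⟫_ℝ = ⟪u, x₀⟫_ℝ → h.2 < ⟪h.1, x⟫_ℝ

/-- For all unit vectors `u`, `v` some `g` in `Γ` has `⟪u, g v⟫ > c`. -/
def Spread {V : Type*} [NormedAddCommGroup V] [InnerProductSpace ℝ V] (c : ℝ)
    (Γ : Set (V ≃ₗᵢ[ℝ] V)) : Prop :=
  ∀ u v : V, ‖u‖ = 1 → ‖v‖ = 1 → ∃ g ∈ Γ, c < ⟪u, g v⟫_ℝ

/-- The numbers `b(e)`. -/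
noncomputable def bound : ℕ → ℕ
  | 0 => 1
  | 1 => 2
  | 2 => 4
  | 3 => 13
  | (k + 4) => ⌊(3 : ℝ) * 2 ^ (k + 4) * (((k + 4 : ℕ) : ℝ) *
      Real.log (2 * ((k + 4 : ℕ) : ℝ) ^ 2 + 2 * ((k + 4 : ℕ) : ℝ) + 1))⌋₊

/-- The function `3 e log(2e²+2e+1)`. -/
noncomputable def lam (e : ℕ) : ℝ := 3 * (e * Real.log (2 * (e : ℝ) ^ 2 + 2 * e + 1))

section

variable {E : Type} [NormedAddCommGroup E] [InnerProductSpace ℝ E] [FiniteDimensional ℝ E]

/-- `K` is invariant under the maps `g` in `Γ` applied to the component of `x - o` in `V`. -/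
def InvariantAt (V : Submodule ℝ E) (Γ : Set (V ≃ₗᵢ[ℝ] V)) (K : Set E) (o : E) : Prop :=
  ∀ g ∈ Γ, ∀ x ∈ K, x + ((g (V.orthogonalProjectionOnto (x - o)) : E) -
    (V.orthogonalProjectionOnto (x - o) : E)) ∈ K

/-- The section of `K` by `o + W`, as a subset of `W`. -/
def sectionBy (K : Set E) (o : E) (W : Submodule ℝ E) : Set W := {w | o + (w : E) ∈ K}

end

/-- translation -/
theorem main' {E : Type} [NormedAddCommGroup E] [InnerProductSpace ℝ E] [FiniteDimensional ℝ E]
    {ι : Type} [Fintype ι] (V : ι → Submodule ℝ E)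
    (hV : ∀ i j, i ≠ j → ∀ x ∈ V i, ∀ y ∈ V j, ⟪x, y⟫_ℝ = 0) (hm : ∀ i, 1 ≤ finrank ℝ (V i))
    (hW : 1 ≤ finrank ℝ ((⨆ i, V i)ᗮ : Submodule ℝ E))
    (Γ : ∀ i, Set (V i ≃ₗᵢ[ℝ] V i))
    (hΓ : ∀ i, Spread √(1 - 1 / (finrank ℝ (V i) : ℝ) ^ 2) (Γ i))
    {K : Set E} (hK : Convex ℝ K) (hKc : IsCompact K) {o : E} (ho : o ∈ interior K)
    (hinv : ∀ i, InvariantAt (V i) (Γ i) K o) {N : ℕ}
    (hs : Separable N (sectionBy K o (⨆ i, V i)ᗮ) 0) :
    Separable ((∏ i, (finrank ℝ (V i) + 2)) * N) K o := by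
  classical
  set K' : Set E := {x | x + o ∈ K} with hK'
  have e1 : K' = (Homeomorph.addRight o) ⁻¹' K := rfl
  have hc : IsCompact K' := by
    rw [e1]
    exact (Homeomorph.addRight o).isCompact_preimage.2 hKc
  have h0 : 0 ∈ interior K' := by
    rw [e1, ← (Homeomorph.addRight o).preimage_interior]
    simpa using ho
  have hconv : Convex ℝ K' := by
    intro x hx y hy s t hs ht hst
    have h1 := hK hx hy hs ht hst
    show s • x + t • y + o ∈ K
    convert h1 using 1
    rw [smul_add, smul_add, add_add_add_comm, ← add_smul, hst, one_smul]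
  have hWb : T2H45.FP.WW V ≠ ⊥ := by
    intro h
    have h1 : finrank ℝ ((⨆ i, V i)ᗮ : Submodule ℝ E) = 0 := by
      have : ((⨆ i, V i)ᗮ : Submodule ℝ E) = ⊥ := h
      rw [this, finrank_bot]
    omega
  have hs' : R753.SJ.Sepd N {w : T2H45.FP.WW V | (w : E) ∈ K'} 0 := by
    have e2 : {w : T2H45.FP.WW V | (w : E) ∈ K'} = sectionBy K o (⨆ i, V i)ᗮ := by
      ext w
      show (w : E) + o ∈ K ↔ o + (w : E) ∈ K
      rw [add_comm]
    rw [e2]
    exact hs
  obtain ⟨H, hH1, hH2, hH3⟩ := T2H45.FP.main V hV hm Γ hΓ hWb hconv hc h0 (by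
    intro i g hg x hx
    have h1 := hinv i g hg (x + o) hx
    rw [add_sub_cancel_right] at h1
    show x + _ + o ∈ K
    convert h1 using 1
    abel) hs'
  refine ⟨H.image fun h => (h.1, h.2 + ⟪h.1, o⟫_ℝ), Finset.card_image_le.trans hH1, ?_, ?_⟩
  · intro h hh
    obtain ⟨g, hg, rfl⟩ := Finset.mem_image.1 hh
    exact hH2 g hg
  · intro u x₀ hu hx₀ hmax
    obtain ⟨h, hh, h1, h2⟩ := hH3 u (x₀ - o) hu (by simpa [hK'] using hx₀) (by
      intro y hy
      have := hmax (y + o) hy
      rw [inner_add_right] at this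
      rw [inner_sub_right]
      linarith)
    refine ⟨_, Finset.mem_image_of_mem _ hh, ?_, fun x hx hxe => ?_⟩
    · rw [inner_zero_right] at h1
      simp only
      linarith
    · have h3 := h2 (x - o) (by simpa [hK'] using hx) (by
        rw [inner_sub_right, inner_sub_right, hxe])
      rw [inner_sub_right] at h3
      simp only
      linarith

theorem result (E : Type) [NormedAddCommGroup E] [InnerProductSpace ℝ E] [FiniteDimensional ℝ E]
    -- a convex body with an interior point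
    (K : Set E) (hK : Convex ℝ K) (hKc : IsCompact K) (o : E) (ho : o ∈ interior K) :
    -- pairwise orthogonal subspaces with symmetries, the free part is not zero
    (∀ (ι : Type) [Fintype ι] (V : ι → Submodule ℝ E) (Γ : ∀ i, Set (V i ≃ₗᵢ[ℝ] V i)),
      (∀ i j, i ≠ j → ∀ x ∈ V i, ∀ y ∈ V j, ⟪x, y⟫_ℝ = 0) → (∀ i, 1 ≤ finrank ℝ (V i)) →
      (∀ i, Spread √(1 - 1 / (finrank ℝ (V i) : ℝ) ^ 2) (Γ i)) →
      (∀ i, InvariantAt (V i) (Γ i) K o) →
      ∀ e : ℕ, finrank ℝ ((⨆ i, V i)ᗮ : Submodule ℝ E) = e → 1 ≤ e →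
      -- 1. the section by the free part
      (∀ N, Separable N (sectionBy K o (⨆ i, V i)ᗮ) 0 →
        Separable ((∏ i, (finrank ℝ (V i) + 2)) * N) K o) ∧
      ((∀ i, 2 ≤ finrank ℝ (V i)) → Separable (2 ^ e) (sectionBy K o (⨆ i, V i)ᗮ) 0 →
        Separable (2 ^ finrank ℝ E) K o) ∧
      -- 2. free parts of small dimension
      Separable ((∏ i, (finrank ℝ (V i) + 2)) * bound e) K o ∧
      (e ≤ 2 → (∀ i, 2 ≤ finrank ℝ (V i)) → Separable (2 ^ finrank ℝ E) K o ∧
        ((∃ i, 3 ≤ finrank ℝ (V i)) → Separable (2 ^ finrank ℝ E - 1) K o)) ∧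
      -- 3. free parts of large dimension
      (2 ≤ e → lam e * ∏ i, ((finrank ℝ (V i) : ℝ) + 2) < ∏ i, 2 ^ finrank ℝ (V i) →
        Separable (2 ^ finrank ℝ E - 1) K o)) ∧
    -- 4. bodies of revolution
    (∀ V : Submodule ℝ E, 2 ≤ finrank ℝ V →
      (∀ x ∈ K, ∀ y, ‖V.orthogonalProjectionOnto (y - o)‖ = ‖V.orthogonalProjectionOnto (x - o)‖ →
        x - y ∈ V → y ∈ K) →
      (∀ e : ℕ, finrank ℝ (Vᗮ : Submodule ℝ E) = e → 1 ≤ e →
        Separable ((finrank ℝ V + 2) * bound e) K o ∧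
        (e ≤ 2 → Separable (2 ^ finrank ℝ E) K o) ∧
        (2 ≤ e → lam e * ((finrank ℝ V : ℝ) + 2) < 2 ^ finrank ℝ V →
          Separable (2 ^ finrank ℝ E - 1) K o))) := by
  classical
  have hmono : ∀ {n m : ℕ}, n ≤ m → Separable n K o → Separable m K o := by
    rintro n m hnm ⟨H, h1, h2⟩
    exact ⟨H, h1.trans hnm, h2⟩
  have hpow : ∀ n : ℕ, 2 ≤ n → n + 2 ≤ 2 ^ n := by
    intro n hn
    induction n, hn using Nat.le_induction with
    | base => norm_num
    | succ n hn ih => rw [pow_succ]; omega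
  have hpow' : ∀ n : ℕ, 3 ≤ n → n + 2 < 2 ^ n := by
    intro n hn
    induction n, hn using Nat.le_induction with
    | base => norm_num
    | succ n hn ih => rw [pow_succ]; omega
  -- the dimension
  have hdim : ∀ (ι : Type) [Fintype ι] (V : ι → Submodule ℝ E),
      (∀ i j, i ≠ j → ∀ x ∈ V i, ∀ y ∈ V j, ⟪x, y⟫_ℝ = 0) →
      ∀ e : ℕ, finrank ℝ ((⨆ i, V i)ᗮ : Submodule ℝ E) = e →
      finrank ℝ E = ∑ i, finrank ℝ (V i) + e := by
    intro ι _ V hV e he
    have h1 := Submodule.finrank_add_finrank_orthogonal (⨆ i, V i)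
    have h2 : ∀ S : Finset ι, finrank ℝ (⨆ i ∈ S, V i : Submodule ℝ E)
        = ∑ i ∈ S, finrank ℝ (V i) := by
      intro S
      induction S using Finset.induction_on with
      | empty => simp
      | insert j S hj ih =>
        rw [Finset.iSup_insert, Finset.sum_insert hj, ← ih]
        have h3 := Submodule.finrank_sup_add_finrank_inf_eq (V j) (⨆ i ∈ S, V i)
        have h4 : V j ⊓ (⨆ i ∈ S, V i) = ⊥ := by
          rw [eq_bot_iff]
          rintro x ⟨hx1, hx2⟩
          have h5 : (⨆ i ∈ S, V i) ≤ (V j)ᗮ := by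
            refine iSup₂_le fun i hi y hy => ?_
            rw [Submodule.mem_orthogonal]
            intro u hu
            exact hV j i (fun h => hj (h ▸ hi)) u hu y hy
          have h6 : ⟪x, x⟫_ℝ = 0 := (Submodule.mem_orthogonal _ _).1 (h5 hx2) x hx1
          exact (Submodule.mem_bot ℝ).2 (inner_self_eq_zero.1 h6)
        rw [h4, finrank_bot, add_zero] at h3
        exact h3
    have h3 := h2 Finset.univ
    have e3 : (⨆ i ∈ (Finset.univ : Finset ι), V i) = ⨆ i, V i := by simp
    rw [e3] at h3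
    omega
  have hgen : ∀ (ι : Type) [Fintype ι] (V : ι → Submodule ℝ E) (Γ : ∀ i, Set (V i ≃ₗᵢ[ℝ] V i)),
      (∀ i j, i ≠ j → ∀ x ∈ V i, ∀ y ∈ V j, ⟪x, y⟫_ℝ = 0) → (∀ i, 1 ≤ finrank ℝ (V i)) →
      (∀ i, Spread √(1 - 1 / (finrank ℝ (V i) : ℝ) ^ 2) (Γ i)) →
      (∀ i, InvariantAt (V i) (Γ i) K o) →
      ∀ e : ℕ, finrank ℝ ((⨆ i, V i)ᗮ : Submodule ℝ E) = e → 1 ≤ e →
      (∀ N, Separable N (sectionBy K o (⨆ i, V i)ᗮ) 0 →
        Separable ((∏ i, (finrank ℝ (V i) + 2)) * N) K o) ∧
      ((∀ i, 2 ≤ finrank ℝ (V i)) → Separable (2 ^ e) (sectionBy K o (⨆ i, V i)ᗮ) 0 →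
        Separable (2 ^ finrank ℝ E) K o) ∧
      Separable ((∏ i, (finrank ℝ (V i) + 2)) * bound e) K o ∧
      (e ≤ 2 → (∀ i, 2 ≤ finrank ℝ (V i)) → Separable (2 ^ finrank ℝ E) K o ∧
        ((∃ i, 3 ≤ finrank ℝ (V i)) → Separable (2 ^ finrank ℝ E - 1) K o)) ∧
      (2 ≤ e → lam e * ∏ i, ((finrank ℝ (V i) : ℝ) + 2) < ∏ i, 2 ^ finrank ℝ (V i) →
        Separable (2 ^ finrank ℝ E - 1) K o) := by
    intro ι _ V Γ hV hm hΓ hinv e he he1
    have hd := hdim ι V hV e he
    have hmain : ∀ N, Separable N (sectionBy K o (⨆ i, V i)ᗮ) 0 →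
        Separable ((∏ i, (finrank ℝ (V i) + 2)) * N) K o := fun N hN =>
      main' V hV hm (by omega) Γ hΓ hK hKc ho hinv hN
    have hprod : (∀ i, 2 ≤ finrank ℝ (V i)) →
        ∏ i, (finrank ℝ (V i) + 2) ≤ 2 ^ ∑ i, finrank ℝ (V i) := by
      intro h2
      rw [← Finset.prod_pow_eq_pow_sum]
      exact Finset.prod_le_prod' fun i _ => hpow _ (h2 i)
    -- the section is a body
    have hsec : Separable (bound e) (sectionBy K o (⨆ i, V i)ᗮ) 0 := by
      have hcl : Topology.IsClosedEmbedding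
          (fun z : ((⨆ i, V i)ᗮ : Submodule ℝ E) => o + (z : E)) :=
        (Homeomorph.addLeft o).isClosedEmbedding.comp
          (⨆ i, V i)ᗮ.closed_of_finiteDimensional.isClosedEmbedding_subtypeVal
      refine T2H45.NB.sepd_all e _ he _ (hcl.isCompact_preimage hKc) ?_
      have h1 : (fun z : ((⨆ i, V i)ᗮ : Submodule ℝ E) => o + (z : E)) ⁻¹' interior K
          ⊆ interior (sectionBy K o (⨆ i, V i)ᗮ) := by
        apply interior_maximal
        · intro z hz
          have hz' : o + (z : E) ∈ interior K := hz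
          exact (interior_subset hz' : o + (z : E) ∈ K)
        · exact isOpen_interior.preimage hcl.continuous
      exact h1 (by simpa using ho)
    refine ⟨hmain, ?_, hmain _ hsec, ?_, ?_⟩
    · intro h2 hN
      refine hmono ?_ (hmain _ hN)
      rw [hd, pow_add]
      exact Nat.mul_le_mul_right _ (hprod h2)
    · intro he2 h2
      have hb : bound e = 2 ^ e := by
        interval_cases e <;> rfl
      refine ⟨?_, ?_⟩
      · refine hmono ?_ (hmain _ hsec)
        rw [hd, pow_add, hb]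
        exact Nat.mul_le_mul_right _ (hprod h2)
      · rintro ⟨j, hj⟩
        refine hmono ?_ (hmain _ hsec)
        have h3 : ∏ i, (finrank ℝ (V i) + 2) < ∏ i, 2 ^ finrank ℝ (V i) :=
          Finset.prod_lt_prod (fun i _ => by omega) (fun i _ => hpow _ (h2 i))
            ⟨j, Finset.mem_univ j, hpow' _ hj⟩
        rw [Finset.prod_pow_eq_pow_sum] at h3
        have h4 : (∏ i, (finrank ℝ (V i) + 2)) * bound e < 2 ^ finrank ℝ E := by
          rw [hd, pow_add, hb]
          exact Nat.mul_lt_mul_of_pos_right h3 (by positivity)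
        omega
    · intro he2 hl
      refine hmono ?_ (hmain _ hsec)
      have h1 : (bound e : ℝ) ≤ 2 ^ e * lam e := T2H45.NB.bnd_le he2 le_rfl
      have h2 : ((((∏ i, (finrank ℝ (V i) + 2)) * bound e : ℕ)) : ℝ)
          < ((2 ^ finrank ℝ E : ℕ) : ℝ) := by
        push_cast
        rw [hd, pow_add, ← Finset.prod_pow_eq_pow_sum]
        have h3 : (0 : ℝ) < ∏ i, ((finrank ℝ (V i) : ℝ) + 2) :=
          Finset.prod_pos fun i _ => by positivity
        calc (∏ i, ((finrank ℝ (V i) : ℝ) + 2)) * (bound e : ℝ)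
            ≤ (∏ i, ((finrank ℝ (V i) : ℝ) + 2)) * (2 ^ e * lam e) := by gcongr
          _ = (lam e * ∏ i, ((finrank ℝ (V i) : ℝ) + 2)) * 2 ^ e := by ring
          _ < (∏ i, 2 ^ finrank ℝ (V i)) * 2 ^ e := by gcongr
      have h3 : (∏ i, (finrank ℝ (V i) + 2)) * bound e < 2 ^ finrank ℝ E := by
        exact_mod_cast h2
      omega
  refine ⟨hgen, fun V hV2 hrev e he he1 => ?_⟩
  have hinv : InvariantAt V Set.univ K o := by
    intro g _ x hx
    have hproj : V.orthogonalProjectionOnto (x + ((g (V.orthogonalProjectionOnto (x - o)) : E) -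
        (V.orthogonalProjectionOnto (x - o) : E)) - o)
        = g (V.orthogonalProjectionOnto (x - o)) := by
      have e1 : x + ((g (V.orthogonalProjectionOnto (x - o)) : E) -
        (V.orthogonalProjectionOnto (x - o) : E)) - o = (x - o) +
        ((g (V.orthogonalProjectionOnto (x - o)) : E) -
        (V.orthogonalProjectionOnto (x - o) : E)) := by abel
      rw [e1, map_add]
      generalize V.orthogonalProjectionOnto (x - o) = q
      rw [map_sub, Submodule.orthogonalProjectionOnto_mem_subspace_eq_self,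
        Submodule.orthogonalProjectionOnto_mem_subspace_eq_self, add_sub_cancel]
    refine hrev x hx _ ?_ ?_
    · rw [hproj, g.norm_map]
    · have e2 : x - (x + ((g (V.orthogonalProjectionOnto (x - o)) : E) -
          (V.orthogonalProjectionOnto (x - o) : E)))
          = ((V.orthogonalProjectionOnto (x - o) - g (V.orthogonalProjectionOnto (x - o)) : V) :
            E) := by
        rw [Submodule.coe_sub]
        abel
      rw [e2]
      exact Submodule.coe_mem _
  have hspread : Spread √(1 - 1 / (finrank ℝ V : ℝ) ^ 2) (Set.univ : Set (V ≃ₗᵢ[ℝ] V)) := by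
    intro u v hu hv
    refine ⟨(ℝ ∙ (v - u))ᗮ.reflection, Set.mem_univ _, ?_⟩
    rw [Submodule.reflection_sub (by rw [hu, hv]), real_inner_self_eq_norm_sq, hu, one_pow,
      Real.sqrt_lt' one_pos, one_pow]
    have : (2 : ℝ) ≤ finrank ℝ V := by exact_mod_cast hV2
    have h1 : (0 : ℝ) < 1 / (finrank ℝ V : ℝ) ^ 2 := by positivity
    linarith
  have hsup : (⨆ _ : Unit, V) = V := iSup_const
  obtain ⟨-, -, h1, h2, h3⟩ := hgen Unit (fun _ => V) (fun _ => Set.univ)
    (fun i j hij => absurd (Subsingleton.elim i j) hij) (fun _ => by omega) (fun _ => hspread)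
    (fun _ => hinv) e (by rw [hsup]; exact he) he1
  refine ⟨?_, fun he2 => (h2 he2 (fun _ => hV2)).1, fun he2 hl => h3 he2 ?_⟩
  · simpa using h1
  · simpa using hl

end Pool.Agent.Results.MP_5e7226_co.SymmetricBlocksFreePart
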